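import Mathlib
import Pool.Agent.N719.QC.Final

set_option autoImplicit false

namespace Pool.Agent.Results.MP_dcacaa_nt.BothPowers

open Finset Polynomial

/-- The embedding of `ℤ[q]` in `ℚ(q)`; the indeterminate `q` is `RatFunc.X`. -/
noncomputable def toQ : ℤ[X] →+* RatFunc ℚ :=
  (algebraMap ℚ[X] (RatFunc ℚ)).comp (mapRingHom (Int.castRingHom ℚ))

/-- `[m] = (1 - q^m) / (1 - q)` -/
noncomputable def qint (m : ℤ) : RatFunc ℚ := (1 - RatFunc.X ^ m) / (1 - RatFunc.X)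

/-- `(a; p)_k = (1 - a) (1 - a p) ... (1 - a p^(k-1))` -/
noncomputable def poch (a p : RatFunc ℚ) (k : ℕ) : RatFunc ℚ := ∏ j ∈ range k, (1 - a * p ^ j)

/-- `S_{d,n}(q)` of the problem -/
noncomputable def S (d n : ℕ) : RatFunc ℚ :=
  ∑ k ∈ range n, RatFunc.X ^ (d * (d - 1) * k / 2) * qint (2 * (d : ℤ) * k - 1) *
    (poch (RatFunc.X ^ (-1 : ℤ)) (RatFunc.X ^ d) k / poch (RatFunc.X ^ d) (RatFunc.X ^ d) k) ^ d

/-- `R ≡ 0` modulo `Φ_n(q)^m`: `R = A / B` with `A, B ∈ ℤ[q]`, `Φ_n^m ∣ A`, `gcd(B, Φ_n) = 1`. -/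
def CongZero (R : RatFunc ℚ) (n m : ℕ) : Prop :=
  ∃ A B : ℤ[X], R = toQ A / toQ B ∧ cyclotomic n ℤ ^ m ∣ A ∧ IsRelPrime B (cyclotomic n ℤ)

theorem S_eq (d n : ℕ) (hd : Odd d) : S d n = N719QC.Sgen d n (d * (d - 1) / 2) (-1) := by
  have h2 : 2 ∣ d * (d - 1) := by
    obtain ⟨c, hc⟩ := hd
    exact Dvd.dvd.mul_left ⟨c, by omega⟩ d
  unfold S N719QC.Sgen qint poch
  refine sum_congr rfl fun k _ => ?_
  rw [Nat.div_mul_right_comm h2, sub_eq_add_neg (2 * (d : ℤ) * k) 1]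

theorem conv (R : RatFunc ℚ) (n m : ℕ) (hn : 0 < n)
    (h : ∃ A B : ℤ[X], ¬ cyclotomic n ℤ ∣ B ∧ R = N719QC.ev (cyclotomic n ℤ ^ m * A) / N719QC.ev B) :
    CongZero R n m := by
  obtain ⟨A, B, hB, hR⟩ := h
  refine ⟨cyclotomic n ℤ ^ m * A, B, hR, Dvd.intro _ rfl, ?_⟩
  exact (((cyclotomic.irreducible hn).isRelPrime_iff_not_dvd).2 hB).symm

/-- **Answer to Q1** (both parts). -/
theorem result : ∀ d n : ℕ, Odd d → 5 ≤ d → 1 < n →
    (n ≡ 1 [MOD d] → CongZero (S d n) n 3) ∧ (2 * n ≡ 1 [MOD d] → CongZero (S d n) n 4) := by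
  intro d n hd hd5 hn
  obtain ⟨c, hc⟩ := hd
  have hee : 2 * (c : ℤ) = -1 + d := by omega
  have hw : ((d * (d - 1) / 2 : ℕ) : ℤ) = (c : ℤ) * (d - 2) - (-1) * (d - 1) := by
    have h1 : d * (d - 1) / 2 = d * c := by
      have : d * (d - 1) = 2 * (d * c) := by
        have : d - 1 = 2 * c := by omega
        rw [this]; ring
      rw [this, Nat.mul_div_cancel_left _ (by norm_num)]
    rw [h1]
    have h2 : (d : ℤ) = 2 * c + 1 := by exact_mod_cast hc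
    push_cast
    rw [h2]; ring
  constructor
  · intro h
    refine conv _ n 3 (by omega) ?_
    rw [S_eq d n ⟨c, hc⟩]
    refine N719QC.caseA n d _ (by omega) (-1) c (Or.inr rfl) ⟨c, hc⟩ hd5 hee hw ?_
    have := (Nat.modEq_iff_dvd.1 h.symm)
    push_cast at this
    exact this
  · intro h
    refine conv _ n 4 (by omega) ?_
    rw [S_eq d n ⟨c, hc⟩]
    refine N719QC.caseB n d _ (by omega) (-1) c (Or.inr rfl) ⟨c, hc⟩ hd5 hee hw ?_
    have := (Nat.modEq_iff_dvd.1 h.symm)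
    push_cast at this
    exact this

end Pool.Agent.Results.MP_dcacaa_nt.BothPowers
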